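import Pool.Agent.H98.HD.Filt

/-!
# The first exceptions to `ω`-strong measurability in `HOD` are not weakly compact

The universe of sets is `ZFSet.{u}`. `HOD`, `StrMeas`, `NotStrMeas`, `Index`, `FewSub`, `IsPart`, `RegUnc`,
`CofOm`, `Club`, `Stat`, `StatL` are defined in the files `H310/HD` of the library; `WeaklyCompact` is
defined in `Pool/Agent/H98/HD/WC.lean`, and `NormalFilter`, `Reflects`, `Unsplit`, `OneClub` in
`Pool/Agent/H98/HD/Up.lean`.

Let `F` be a normal filter on the regular cardinal `κ` such that every stationary subset of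
`cof(ω) ∩ κ` in `HOD` is stationary in `l` for `F`-almost all `l < κ`. If `F`-positively many `l < κ` are
`ω`-strongly measurable in `HOD` (here `l` need not be regular) then `κ` is, too.

If `κ` is weakly compact then the filter generated by the `1`-clubs, which is the weakly compact filter, has
these properties. So if `κ` is weakly compact and not `ω`-strongly measurable in `HOD` then the set of the
regular `l < κ` which are not belongs to the weakly compact filter; and if all regular cardinals between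
some `β < κ` and `κ` are `ω`-strongly measurable in `HOD` then `κ` is.
-/

set_option autoImplicit false

namespace Pool.Agent.Results.MP_ecfd11_lc.WeaklyCompactCardinals

open Pool.Agent.H310.HD Pool.Agent.H98.HD Filter

universe u

/-- **Main theorem.** `b` chooses one of the two readings of the definition (`κ < λ` an arbitrary
ordinal, or a cardinal). -/
theorem result (b : Bool) :
    (∀ κ : Ordinal.{u}, RegUnc κ.toZFSet → ∀ F : Filter Ordinal.{u}, NormalFilter κ F →
      Reflects κ F → NotStrMeas b κ → ∀ᶠ l in F, ¬ Unsplit b l) ∧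
    (∀ κ : Ordinal.{u}, WeaklyCompact κ → ∃ F : Filter Ordinal.{u}, NormalFilter κ F ∧
      Reflects κ F ∧ (∀ᶠ l in F, RegUnc l.toZFSet) ∧ ∀ X, X ∈ F ↔ ∃ R, OneClub κ R ∧ R ⊆ X) ∧
    (∀ κ : Ordinal.{u}, WeaklyCompact κ → NotStrMeas b κ →
      ∃ R, OneClub κ R ∧ ∀ l ∈ R, NotStrMeas b l) ∧
    ∀ κ : Ordinal.{u}, WeaklyCompact κ → ∀ β < κ,
      (∀ l, β < l → l < κ → RegUnc (Ordinal.toZFSet l) → StrMeas b l) → StrMeas b κ := by
  have h1 : ∀ κ : Ordinal.{u}, RegUnc κ.toZFSet → ∀ F : Filter Ordinal.{u}, NormalFilter κ F →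
      Reflects κ F → NotStrMeas b κ → ∀ᶠ l in F, ¬ Unsplit b l := by
    intro κ hκ F hF hR hn
    by_contra hcon
    exact hn.2 (strMeas_of_unsplit b hκ hF hR fun h => hcon h)
  have h2 : ∀ κ : Ordinal.{u}, WeaklyCompact κ → NotStrMeas b κ →
      ∃ R, OneClub κ R ∧ ∀ l ∈ R, NotStrMeas b l := by
    intro κ hκ hn
    obtain ⟨F, hF, hR, hreg, hX⟩ := exists_wcFilter hκ
    obtain ⟨R, h3, h4⟩ := (hX _).1 ((h1 κ hκ.reg F hF hR hn).and hreg)
    exact ⟨R, h3, fun l hl => ⟨(h4 hl).2, fun h5 => (h4 hl).1 h5.2⟩⟩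
  refine ⟨h1, fun κ hκ => exists_wcFilter hκ, h2, fun κ hκ β hβ h => ?_⟩
  by_contra hn
  obtain ⟨R, hR, h3⟩ := h2 κ hκ ⟨hκ.reg, hn⟩
  obtain ⟨l, hl, ⟨hlR, hβl⟩, _⟩ := hR.2.1.tail hκ.reg hβ κ.toZFSet (fun x hx => hx)
    ⟨fun x hx => hx, fun x hx => by
      obtain ⟨γ, hγ, rfl⟩ := Ordinal.mem_toZFSet_iff.1 hx
      exact ⟨_, tz_mem.2 (hκ.reg.succ_lt hγ), tz_mem.2 (Order.lt_succ γ)⟩, fun a ha _ _ => ha⟩
  exact (h3 l hlR).2 (h l hβl hl (h3 l hlR).1)

end Pool.Agent.Results.MP_ecfd11_lc.WeaklyCompactCardinals
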